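import Mathlib
import Pool.Agent.X325.HS.Ext

/-! Moving the fibres of a family with the lifting properties. -/

set_option autoImplicit false

open Topology Set unitInterval

namespace Pool.Agent.X325.ET

open Pool.Agent.X325.HS Pool.Agent.Y193.CS Pool.Agent.Y193.FG

/-- conjugation by a path maps one image into the other one -/
theorem range_conj {C : ∀ (G : Type) [Group G], Prop}
    (hsub : ∀ (G G' : Type) [Group G] [Group G'] (f : G →* G'), Function.Injective f → C G' → C G)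
    {A B Z : Type} [TopologicalSpace A] [TopologicalSpace B] [TopologicalSpace Z] (f : C(A, Z))
    (g : C(B, Z)) (a : A) (b : B) (τ : Path (f a) (g b))
    (h : ∀ P : Path a a, ∃ Q : Path b b,
      (Path.Homotopic.Quotient.mk (P.map f.continuous)).trans (Path.Homotopic.Quotient.mk τ) =
        (Path.Homotopic.Quotient.mk τ).trans (Path.Homotopic.Quotient.mk (Q.map g.continuous)))
    (hB : C (FundamentalGroup.map g b).range) : C (FundamentalGroup.map f a).range := by
  let e := FundamentalGroup.fundamentalGroupMulEquivOfPath τ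
  have hmem : ∀ x : (FundamentalGroup.map f a).range,
      e x.1 ∈ (FundamentalGroup.map g b).range := by
    rintro ⟨x, y, rfl⟩
    obtain ⟨P, rfl⟩ := Path.Homotopic.Quotient.mk_surjective y
    obtain ⟨Q, hQ⟩ := h P
    refine ⟨Path.Homotopic.Quotient.mk Q, ?_⟩
    have h1 : e (FundamentalGroup.map f a (Path.Homotopic.Quotient.mk P)) =
        (Path.Homotopic.Quotient.mk τ).symm.trans
          ((Path.Homotopic.Quotient.mk (P.map f.continuous)).trans
            (Path.Homotopic.Quotient.mk τ)) := rfl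
    rw [h1, hQ, ← Path.Homotopic.Quotient.trans_assoc, Path.Homotopic.Quotient.symm_trans,
      Path.Homotopic.Quotient.refl_trans]
    rfl
  refine hsub _ (FundamentalGroup.map g b).range
    ⟨⟨fun x => ⟨e x.1, hmem x⟩, ?_⟩, ?_⟩ ?_ hB
  · exact Subtype.ext (map_one e)
  · intro x y
    exact Subtype.ext (map_mul e _ _)
  · intro x y hxy
    have h2 : e x.1 = e y.1 := congrArg Subtype.val hxy
    exact Subtype.ext (e.injective h2)

section

variable {r a : ℕ} {𝒴 : Set (Fin r → ℂ)} {π : Fin a → MvPolynomial (Fin r) ℂ}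
  {W : Set (Fin a → ℂ)}

/-- the parameters of a point -/
noncomputable def par (π : Fin a → MvPolynomial (Fin r) ℂ) (y : Fin r → ℂ) : Fin a → ℂ :=
  fun i => MvPolynomial.eval y (π i)

/-- the paths in the set `W` of parameters can be lifted, with prescribed initial points -/
def HasLift (𝒴 : Set (Fin r → ℂ)) (π : Fin a → MvPolynomial (Fin r) ℂ) (W : Set (Fin a → ℂ)) :
    Prop :=
  ∀ γ : C(I, Fin a → ℂ), (∀ t, γ t ∈ W) → ∀ y ∈ 𝒴, par π y = γ 0 →
    ∃ Y : C(I, 𝒴), (Y 0).1 = y ∧ ∀ t, par π (Y t).1 = γ t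

theorem HasLift.path (hl : HasLift 𝒴 π W) {y : Fin r → ℂ} (hy : y ∈ 𝒴) {w : Fin a → ℂ}
    (γ : Path (par π y) w) (hγ : ∀ t, γ t ∈ W) :
    ∃ Y : C(I, 𝒴), (Y 0).1 = y ∧ ∀ t, par π (Y t).1 = γ t :=
  hl γ.toContinuousMap hγ y hy γ.source.symm

theorem fib_move (ht : HasTransport 𝒴 π) (hl : HasLift 𝒴 π W) {y y' : Fin r → ℂ} (hy : y ∈ 𝒴)
    (hy' : y' ∈ 𝒴) (hj : JoinedIn W (par π y) (par π y'))
    (hc : IsPathConnected (Fib 𝒴 π y)) : IsPathConnected (Fib 𝒴 π y') := by
  obtain ⟨γ, hγ⟩ := hj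
  obtain ⟨Y, hY0, hY⟩ := hl.path hy γ hγ
  have hY1 : par π (Y 1).1 = par π y' := by rw [hY, γ.target]
  refine ⟨(Y 1).1, ⟨(Y 1).2, fun i => congrFun hY1 i⟩, fun {z} hz => ?_⟩
  have hz' : par π z = par π y' := funext hz.2
  obtain ⟨Z, hZ0, hZ⟩ := hl (⟨fun t => γ (σ t), by fun_prop⟩ : C(I, Fin a → ℂ))
    (fun t => hγ _) z hz.1 (by
      show par π z = γ (σ 0)
      rw [unitInterval.symm_zero, γ.target, hz'])
  let Z' : C(I, 𝒴) := Z.comp ⟨σ, unitInterval.continuous_symm⟩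
  have hZ' : ∀ t, par π (Z' t).1 = γ t := fun t => by
    show par π (Z (σ t)).1 = γ t
    rw [hZ]
    show γ (σ (σ t)) = γ t
    rw [unitInterval.symm_symm]
  have hj2 : JoinedIn (Fib 𝒴 π y) (Y 0).1 (Z' 0).1 := by
    refine hc.joinedIn _ ⟨(Y 0).2, fun i => ?_⟩ _ ⟨(Z' 0).2, fun i => ?_⟩
    · rw [hY0]
    · have h1 := hZ' 0
      rw [γ.source] at h1
      exact congrFun h1 i
  obtain ⟨β, hβ⟩ := hj2
  obtain ⟨B, hB, hB0, hBl, hBr⟩ := ht Y Z' ⟨fun u => ⟨β u, (hβ u).1⟩,
      Continuous.subtype_mk β.continuous _⟩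
    (fun s i => by
      have h1 : par π (Z' s).1 = par π (Y s).1 := by rw [hZ', hY]
      exact congrFun h1 i)
    (fun u i => ((hβ u).2 i).trans (congrArg (fun v => MvPolynomial.eval v (π i)) hY0.symm))
    (Subtype.ext β.source) (Subtype.ext β.target)
  refine ⟨⟨⟨fun u => (B (1, u)).1, by fun_prop⟩, ?_, ?_⟩, fun u => ?_⟩
  · show (B (1, 0)).1 = (Y 1).1
    rw [hBl]
  · show (B (1, 1)).1 = z
    rw [hBr, ← hZ0]
    show (Z (σ 1)).1 = (Z 0).1
    rw [unitInterval.symm_one]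
  · refine ⟨(B (1, u)).2, fun i => ?_⟩
    show MvPolynomial.eval (B (1, u)).1 (π i) = _
    rw [hB]
    exact congrFun hY1 i

theorem pi_move {C : ∀ (G : Type) [Group G], Prop}
    (hsub : ∀ (G G' : Type) [Group G] [Group G'] (f : G →* G'), Function.Injective f → C G' → C G)
    (ht : HasTransport 𝒴 π) (hl : HasLift 𝒴 π W) {y y' : Fin r → ℂ}
    (hj : JoinedIn W (par π y) (par π y')) {Z : Type} [TopologicalSpace Z] (φ : C(𝒴, Z))
    (hc : PiImageIn C (toFib (π := π) φ y)) : PiImageIn C (toFib (π := π) φ y') := by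
  obtain ⟨γ, hγ⟩ := hj
  rintro ⟨z, hz⟩
  have hz' : par π z = par π y' := funext hz.2
  obtain ⟨Y, hY0, hY⟩ := hl (⟨fun t => γ (σ t), by fun_prop⟩ : C(I, Fin a → ℂ))
    (fun t => hγ _) z hz.1 (by
      show par π z = γ (σ 0)
      rw [unitInterval.symm_zero, γ.target, hz'])
  have hY1 : par π (Y 1).1 = par π y := by
    rw [hY]
    show γ (σ 1) = par π y
    rw [unitInterval.symm_one, γ.source]
  have hm1 : (Y 1).1 ∈ Fib 𝒴 π y := ⟨(Y 1).2, fun i => congrFun hY1 i⟩
  have e0 : (⟨z, hz.1⟩ : 𝒴) = Y 0 := Subtype.ext hY0.symm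
  let τ : Path (toFib (π := π) φ y' ⟨z, hz⟩) (toFib (π := π) φ y ⟨(Y 1).1, hm1⟩) :=
    { toFun := fun t => φ (Y t)
      continuous_toFun := φ.continuous.comp Y.continuous
      source' := congrArg φ e0.symm
      target' := rfl }
  refine range_conj hsub (toFib (π := π) φ y') (toFib (π := π) φ y) ⟨z, hz⟩ ⟨(Y 1).1, hm1⟩ τ
    (fun P => ?_) (hc _)
  obtain ⟨B, hB, hB0, hBl, hBr⟩ := ht Y Y ⟨fun u => ⟨(P u).1, (P u).2.1⟩,
      Continuous.subtype_mk (continuous_subtype_val.comp P.continuous) _⟩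
    (fun s i => rfl)
    (fun u i => by
      rw [hY0]
      show MvPolynomial.eval (P u).1 (π i) = MvPolynomial.eval z (π i)
      rw [(P u).2.2 i, hz.2 i])
    (by
      apply Subtype.ext
      show (P 0).1 = (Y 0).1
      rw [P.source, hY0])
    (by
      apply Subtype.ext
      show (P 1).1 = (Y 0).1
      rw [P.target, hY0])
  have hBm : ∀ u, (B (1, u)).1 ∈ Fib 𝒴 π y := fun u => ⟨(B (1, u)).2, fun i => by
    rw [hB]
    exact congrFun hY1 i⟩
  let Q : Path (⟨(Y 1).1, hm1⟩ : Fib 𝒴 π y) ⟨(Y 1).1, hm1⟩ :=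
    { toFun := fun u => ⟨(B (1, u)).1, hBm u⟩
      continuous_toFun := Continuous.subtype_mk (continuous_subtype_val.comp
        (B.continuous.comp (by fun_prop))) _
      source' := Subtype.ext (congrArg (fun v : 𝒴 => v.1) (hBl 1))
      target' := Subtype.ext (congrArg (fun v : 𝒴 => v.1) (hBr 1)) }
  refine ⟨Q, ?_⟩
  exact (square (φ.comp B) τ (Q.map (toFib (π := π) φ y).continuous)
    (P.map (toFib (π := π) φ y').continuous) τ (fun t => congrArg φ (hBl t).symm)
    (fun u => rfl) (fun u => congrArg φ (Subtype.ext (congrArg Subtype.val (hB0 u)).symm))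
    (fun t => congrArg φ (hBr t).symm)).symm

end

end Pool.Agent.X325.ET
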