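import Mathlib
import Pool.Agent.X325.EC.Cov

/-! Lifting of squares and of paths for the family of the planes without finitely many points. -/

set_option autoImplicit false

open Topology Set unitInterval Filter

namespace Pool.Agent.X325.ET

open Pool.Agent.X325.EC

section

variable {m : ℕ} {ρ : ℝ}

/-- the plane without the points `e i` -/
def Pt (e : Fin m → ℂ) : Set ℂ := {x | ∀ i, x ≠ e i}

theorem triv_Pt {e : ℝ → Fin m → ℂ} (he : Continuous e) {a b : ℝ} (hρ : 0 < ρ)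
    (hs : Sep ρ (e a)) (h : ∀ s ∈ Icc a b, Near ρ (e a) (e s)) :
    Triv (fun s => Pt (e s)) a b := by
  refine ⟨fun x => hh ρ (e a) (e x.1) x.2, fun x => hinv ρ (e a) (e x.1) x.2, ?_, ?_, ?_, ?_, ?_⟩
  · intro t₀ _
    exact continuousWithinAt_hh (he.comp continuous_fst).continuousWithinAt
      continuous_snd.continuousWithinAt
  · intro t₀ ht₀
    exact continuousWithinAt_hinv hρ (fun t ht => h t.1 ht.1) ht₀
      (he.comp continuous_fst).continuousWithinAt continuous_snd.continuousWithinAt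
  · intro s hs' w hw i hi
    refine hw i ?_
    have h1 := hh_anti hρ (h s hs') w (e a i)
    have h2 : hh ρ (e a) (e s) w = hh ρ (e a) (e s) (e a i) := by
      rw [hh_point hρ hs]
      exact hi
    rw [h2, sub_self, norm_zero, mul_zero] at h1
    exact sub_eq_zero.mp (norm_le_zero_iff.mp h1)
  · intro s hs' w hw
    refine ⟨fun i hi => hw i ?_, hh_hinv hρ (h s hs') w⟩
    have hi' : hinv ρ (e a) (e s) w = e a i := hi
    rw [← hh_hinv hρ (h s hs') w, hi', hh_point hρ hs]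
  · intro w _
    exact ⟨hh_self _ _ _, hinv_self hρ _ _⟩

/-- lifting of squares for the family of the planes without the points `e i` -/
theorem lifts_Pt {e : ℝ → Fin m → ℂ} (he : Continuous e)
    (hi : ∀ s ∈ Icc (0 : ℝ) 1, Function.Injective (e s)) {p p' : ℝ → ℂ} (hp : Continuous p)
    (hp' : Continuous p') (hpF : ∀ s ∈ Icc (0 : ℝ) 1, p s ∈ Pt (e s))
    (hpF' : ∀ s ∈ Icc (0 : ℝ) 1, p' s ∈ Pt (e s)) : Lifts (fun s => Pt (e s)) p p' 0 1 := by
  obtain ⟨ρ, hρ, hs⟩ := exists_sep he hi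
  obtain ⟨δ, hδ, hn⟩ := exists_near he hρ
  refine lifts_of_triv hδ (fun a b ha hab hb hd => ?_) hp hp' hpF hpF'
  refine triv_Pt he hρ (hs a ⟨ha, hab.trans hb⟩) (fun s hs' => ?_)
  refine hn a ⟨ha, hab.trans hb⟩ s ⟨ha.trans hs'.1, hs'.2.trans hb⟩ ?_
  rw [abs_of_nonneg (by linarith [hs'.1])]
  linarith [hs'.2]

end

section plift

variable {W : Type*} [TopologicalSpace W] {F : ℝ → Set W}

/-- points can be moved along the family -/
def PLifts (F : ℝ → Set W) (a b : ℝ) : Prop :=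
  ∀ w ∈ F a, ∃ p : C(ℝ, W), p a = w ∧ ∀ s ∈ Icc a b, p s ∈ F s

theorem PLifts.trans {a b c : ℝ} (hab : a ≤ b) (h1 : PLifts F a b) (h2 : PLifts F b c) :
    PLifts F a c := by
  intro w hw
  obtain ⟨p, hp1, hp2⟩ := h1 w hw
  obtain ⟨p', hp1', hp2'⟩ := h2 (p b) (hp2 b ⟨hab, le_rfl⟩)
  refine ⟨⟨fun s => if s ≤ b then p s else p' s,
    Continuous.if_le p.continuous p'.continuous continuous_id continuous_const ?_⟩, ?_, ?_⟩
  · intro s hs
    have hs' : s = b := hs
    subst hs'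
    exact hp1'.symm
  · show (if a ≤ b then p a else p' a) = w
    rw [if_pos hab]
    exact hp1
  · intro s hs
    show (if s ≤ b then p s else p' s) ∈ F s
    split_ifs with h
    · exact hp2 s ⟨hs.1, h⟩
    · exact hp2' s ⟨(not_le.mp h).le, hs.2⟩

theorem plifts_of_triv' {a b : ℝ} (hab : a ≤ b) (h : Triv F a b) : PLifts F a b := by
  obtain ⟨Φ, Ψ, hΦ, hΨ, h1, h2, h3⟩ := h
  intro w hw
  let cl : ℝ → ℝ := fun s => max a (min s b)
  have hcl : Continuous cl := by fun_prop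
  have hclm : ∀ s, cl s ∈ Icc a b := fun s => ⟨le_max_left _ _, max_le hab (min_le_right _ _)⟩
  have hcle : ∀ s ∈ Icc a b, cl s = s := fun s hs => by
    show max a (min s b) = s
    rw [min_eq_left hs.2, max_eq_right hs.1]
  refine ⟨⟨fun s => Φ (cl s, w), hΦ.comp_continuous (by fun_prop) (fun s => ⟨hclm s, hw⟩)⟩,
    ?_, ?_⟩
  · show Φ (cl a, w) = w
    rw [hcle a ⟨le_rfl, hab⟩]
    exact (h3 w hw).1
  · intro s hs
    show Φ (cl s, w) ∈ F s
    rw [hcle s hs]
    exact h1 s hs w hw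

theorem plifts_of_triv {δ : ℝ} (hδ : 0 < δ)
    (h : ∀ a b, 0 ≤ a → a ≤ b → b ≤ 1 → b - a < δ → Triv F a b) : PLifts F 0 1 := by
  obtain ⟨N, hN⟩ := exists_nat_gt (1 / δ)
  have hN0 : (0 : ℝ) < N := lt_trans (by positivity) hN
  have key : ∀ k : ℕ, k ≤ N → PLifts F 0 (k / N) := by
    intro k
    induction k with
    | zero =>
      intro _
      have h0 : ((0 : ℕ) : ℝ) / N = 0 := by simp
      rw [h0]
      exact plifts_of_triv' le_rfl (h 0 0 le_rfl le_rfl zero_le_one (by simpa using hδ))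
    | succ k ih =>
      intro hk
      have h1 : (0 : ℝ) ≤ k / N := by positivity
      have h2 : (k : ℝ) / N ≤ (k + 1 : ℕ) / N := by
        push_cast
        gcongr
        linarith
      have h3 : ((k + 1 : ℕ) : ℝ) / N ≤ 1 := by
        rw [div_le_one hN0]
        exact_mod_cast hk
      refine (ih (by omega)).trans h1 (plifts_of_triv' h2 (h _ _ h1 h2 h3 ?_))
      push_cast
      rw [← sub_div, show (k : ℝ) + 1 - k = 1 by ring, div_lt_iff₀ hN0]
      rw [div_lt_iff₀ hδ] at hN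
      linarith
  have h1 := key N le_rfl
  rwa [div_self hN0.ne'] at h1

theorem plifts_Pt {m : ℕ} {e : ℝ → Fin m → ℂ} (he : Continuous e)
    (hi : ∀ s ∈ Icc (0 : ℝ) 1, Function.Injective (e s)) : PLifts (fun s => Pt (e s)) 0 1 := by
  obtain ⟨ρ, hρ, hs⟩ := exists_sep he hi
  obtain ⟨δ, hδ, hn⟩ := exists_near he hρ
  refine plifts_of_triv hδ (fun a b ha hab hb hd => ?_)
  refine triv_Pt he hρ (hs a ⟨ha, hab.trans hb⟩) (fun s hs' => ?_)
  refine hn a ⟨ha, hab.trans hb⟩ s ⟨ha.trans hs'.1, hs'.2.trans hb⟩ ?_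
  rw [abs_of_nonneg (by linarith [hs'.1])]
  linarith [hs'.2]

end plift

end Pool.Agent.X325.ET
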