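import Mathlib
import Pool.Agent.Y193.FG.Root

/-! The covering of the roots of separable polynomials over a compact space. -/

set_option autoImplicit false

open Topology unitInterval Set Polynomial

namespace Pool.Agent.X325.ET

open Pool.Agent.Y193.FG (eval_sum dd dd_mul dd_self exists_root_near)

section

variable {n : ℕ} {T : Type*} [TopologicalSpace T] (P : T → ℂ[X])

/-- the space of roots over the interval -/
abbrev RootSp := {q : T × ℂ // (P q.1).eval q.2 = 0}

variable (hn : ∀ t, (P t).natDegree = n) (hc : ∀ i, Continuous (fun t => (P t).coeff i))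

include hn hc

theorem cont_eval : Continuous (fun q : T × ℂ => (P q.1).eval q.2) := by
  have : (fun q : T × ℂ => (P q.1).eval q.2) =
      fun q : T × ℂ => ∑ i ∈ Finset.range (n + 1), (P q.1).coeff i * q.2 ^ i := by
    funext q
    exact eval_sum (hn _) _
  rw [this]
  refine continuous_finsetSum _ (fun i _ => ?_)
  exact ((hc i).comp continuous_fst).mul (continuous_snd.pow i)

omit hn in
theorem cont_dd : Continuous (fun q : T × ℂ × ℂ => dd n (P q.1) q.2.1 q.2.2) := by
  unfold dd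
  refine continuous_finsetSum _ (fun i _ => ?_)
  refine ((hc i).comp continuous_fst).mul ?_
  fun_prop

theorem root_compact [CompactSpace T] (hm : ∀ t, (P t).Monic) : CompactSpace (RootSp P) := by
  have hbd : ∃ C : ℝ, 0 ≤ C ∧ ∀ t, ∑ i ∈ Finset.range n, ‖(P t).coeff i‖ ≤ C := by
    have hcont : Continuous (fun t => ∑ i ∈ Finset.range n, ‖(P t).coeff i‖) :=
      continuous_finsetSum _ (fun i _ => (hc i).norm)
    obtain ⟨C, hC⟩ := (isCompact_range hcont).bddAbove
    exact ⟨max C 0, le_max_right _ _, fun t => (hC ⟨t, rfl⟩).trans (le_max_left _ _)⟩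
  obtain ⟨C, hC0, hC⟩ := hbd
  have hb : ∀ t θ, (P t).eval θ = 0 → ‖θ‖ ≤ 1 + C := by
    intro t θ h
    by_contra hlt
    push Not at hlt
    have h1 : 1 < ‖θ‖ := by linarith
    have h2 := eval_sum (hn t) θ
    rw [h, Finset.sum_range_succ, show (P t).coeff n = 1 by
      rw [← hn t]; exact (hm t).coeff_natDegree, one_mul] at h2
    rcases Nat.eq_zero_or_pos n with h0 | hpos
    · subst h0
      simp at h2
    have h3 : ‖θ‖ ^ n ≤ C * ‖θ‖ ^ (n - 1) := by
      have : θ ^ n = - ∑ i ∈ Finset.range n, (P t).coeff i * θ ^ i := by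
        linear_combination -h2
      calc ‖θ‖ ^ n = ‖∑ i ∈ Finset.range n, (P t).coeff i * θ ^ i‖ := by
            rw [← norm_pow, this, norm_neg]
        _ ≤ ∑ i ∈ Finset.range n, ‖(P t).coeff i‖ * ‖θ‖ ^ (n - 1) := by
            refine (norm_sum_le _ _).trans (Finset.sum_le_sum (fun i hi => ?_))
            rw [norm_mul, norm_pow]
            refine mul_le_mul_of_nonneg_left ?_ (norm_nonneg _)
            exact pow_le_pow_right₀ h1.le (by rw [Finset.mem_range] at hi; omega)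
        _ ≤ C * ‖θ‖ ^ (n - 1) := by
            rw [← Finset.sum_mul]
            exact mul_le_mul_of_nonneg_right (hC t) (by positivity)
    have h4 : ‖θ‖ ^ n = ‖θ‖ * ‖θ‖ ^ (n - 1) := by
      rw [← pow_succ']
      congr 1
      omega
    rw [h4] at h3
    have := le_of_mul_le_mul_right h3 (by positivity)
    linarith
  have hK : IsCompact ((univ : Set T) ×ˢ Metric.closedBall (0:ℂ) (1 + C)) :=
    isCompact_univ.prod (isCompact_closedBall _ _)
  have hcl : IsClosed {q : T × ℂ | (P q.1).eval q.2 = 0} :=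
    isClosed_eq (cont_eval P hn hc) continuous_const
  have hcomp : IsCompact {q : T × ℂ | (P q.1).eval q.2 = 0} :=
    hK.of_isClosed_subset hcl (by
      rintro ⟨t, θ⟩ h
      exact ⟨mem_univ _, by simpa using hb t θ h⟩)
  exact isCompact_iff_compactSpace.mp hcomp

theorem root_open (hm : ∀ t, (P t).Monic) : IsOpenMap (fun q : RootSp P => q.1.1) := by
  rw [isOpenMap_iff_nhds_le]
  rintro ⟨⟨t₀, θ₀⟩, h0⟩
  intro S hS
  rw [Filter.mem_map, nhds_subtype_eq_comap, Filter.mem_comap] at hS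
  obtain ⟨T, hT, hTS⟩ := hS
  rw [nhds_prod_eq, Filter.mem_prod_iff] at hT
  obtain ⟨A, hA, B, hB, hAB⟩ := hT
  obtain ⟨ε, hε, hball⟩ := Metric.mem_nhds_iff.mp hB
  have hcont : Continuous (fun t => (P t).eval θ₀) :=
    (cont_eval P hn hc).comp (continuous_id.prodMk continuous_const)
  have hev : ∀ᶠ t in 𝓝 t₀, ‖(P t).eval θ₀‖ < ε ^ n := by
    have h1 : ‖(P t₀).eval θ₀‖ < ε ^ n := by
      simp only at h0
      rw [h0, norm_zero]
      positivity
    exact hcont.norm.continuousAt.eventually_lt continuousAt_const h1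
  filter_upwards [hev, hA] with t ht htA
  obtain ⟨θ, h1, h2⟩ := exists_root_near (hm t) (hn t) θ₀ hε ht
  exact hTS (show (⟨(t, θ), h1⟩ : RootSp P) ∈ _ from hAB ⟨htA, hball h2⟩)

theorem root_inj (hs : ∀ t θ, (P t).eval θ = 0 → (P t).derivative.eval θ ≠ 0) (q : RootSp P) :
    ∃ U : Set (RootSp P), IsOpen U ∧ q ∈ U ∧ InjOn (fun q : RootSp P => q.1.1) U := by
  obtain ⟨⟨t₀, θ₀⟩, h0⟩ := q
  have h1 : dd n (P t₀) θ₀ θ₀ ≠ 0 := by
    rw [dd_self (hn t₀)]
    exact hs _ _ h0
  have hopen : IsOpen {q : T × ℂ × ℂ | dd n (P q.1) q.2.1 q.2.2 ≠ 0} :=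
    isOpen_ne_fun (cont_dd P hc) continuous_const
  have hmem := hopen.mem_nhds (show ((t₀, θ₀, θ₀) : T × ℂ × ℂ) ∈ _ from h1)
  rw [nhds_prod_eq, Filter.mem_prod_iff] at hmem
  obtain ⟨A, hA, B, hB, hAB⟩ := hmem
  rw [nhds_prod_eq, Filter.mem_prod_self_iff] at hB
  obtain ⟨C, hC, hCB⟩ := hB
  obtain ⟨A', hA', hA'o, hA't⟩ := mem_nhds_iff.mp hA
  obtain ⟨C', hC', hC'o, hC't⟩ := mem_nhds_iff.mp hC
  refine ⟨Subtype.val ⁻¹' (A' ×ˢ C'), (hA'o.prod hC'o).preimage continuous_subtype_val,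
    ⟨hA't, hC't⟩, ?_⟩
  rintro ⟨⟨t, θ⟩, h⟩ ⟨ht, hθ⟩ ⟨⟨t', θ'⟩, h'⟩ ⟨ht', hθ'⟩ heq
  simp only at heq h h' ht hθ ht' hθ'
  subst heq
  have h2 := hAB (show ((t, θ, θ') : T × ℂ × ℂ) ∈ A ×ˢ B from
    ⟨hA' ht, hCB ⟨hC' hθ, hC' hθ'⟩⟩)
  have h3 := dd_mul (hn t) θ θ'
  rw [h, h', sub_zero, mul_eq_zero] at h3
  rcases h3 with h3 | h3
  · exact absurd h3 h2
  · have : θ = θ' := sub_eq_zero.mp h3
    subst this
    rfl

theorem root_cov [CompactSpace T] [T2Space T] (hm : ∀ t, (P t).Monic)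
    (hs : ∀ t θ, (P t).eval θ = 0 → (P t).derivative.eval θ ≠ 0) :
    IsCoveringMap (fun q : RootSp P => q.1.1) := by
  have : CompactSpace (RootSp P) := root_compact P hn hc hm
  have hloc : IsLocalHomeomorph (fun q : RootSp P => q.1.1) := by
    rw [isLocalHomeomorph_iff_isOpenEmbedding_restrict]
    intro q
    obtain ⟨U, hU, hq, hinj⟩ := root_inj P hn hc hs q
    refine ⟨U, hU.mem_nhds hq, ?_⟩
    refine IsOpenEmbedding.of_continuous_injective_isOpenMap ?_ ?_ ?_
    · exact (continuous_fst.comp continuous_subtype_val).comp continuous_subtype_val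
    · intro a b hab
      exact Subtype.ext (hinj a.2 b.2 hab)
    · exact (root_open P hn hc hm).comp hU.isOpenMap_subtype_val
  exact isLocalHomeomorph_iff_isCoveringMap.mp hloc

end

end Pool.Agent.X325.ET
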