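import Mathlib
import Pool.Agent.X325.ET.Root
import Pool.Agent.X325.ET.Pt
import Pool.Agent.X325.ET.Move
import Pool.Agent.X325.EC.Fam

/-! Homotopy lifting for the algebraic families of étale covers of open subsets of the line. -/

set_option autoImplicit false

open Topology Set unitInterval

namespace Pool.Agent.X325.ET

open Pool.Agent.X325.HS Pool.Agent.X325.EC

section square

variable {n : ℕ}

theorem root_square {P : I × I → Polynomial ℂ} (hn : ∀ t, (P t).natDegree = n)
    (hc : ∀ i, Continuous (fun t => (P t).coeff i)) (hm : ∀ t, (P t).Monic)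
    (hs : ∀ t θ, (P t).eval θ = 0 → (P t).derivative.eval θ ≠ 0) {b l r : C(I, ℂ)}
    (hb : ∀ u, (P (0, u)).eval (b u) = 0) (hl : ∀ s, (P (s, 0)).eval (l s) = 0)
    (hr : ∀ s, (P (s, 1)).eval (r s) = 0) (h0 : b 0 = l 0) (h1 : b 1 = r 0) :
    ∃ S : C(I × I, ℂ), (∀ x, (P x).eval (S x) = 0) ∧ (∀ u, S (0, u) = b u) ∧
      (∀ s, S (s, 0) = l s) ∧ ∀ s, S (s, 1) = r s := by
  have cov := root_cov P hn hc hm hs
  let f : C(I, RootSp P) := ⟨fun u => ⟨((0, u), b u), hb u⟩,
    Continuous.subtype_mk (by fun_prop) _⟩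
  let S' := cov.liftHomotopy (ContinuousMap.id (I × I)) f (fun u => rfl)
  have hS1 : ∀ x, (S' x).1.1 = x := fun x =>
    congrFun (cov.liftHomotopy_lifts (ContinuousMap.id (I × I)) f (fun u => rfl)) x
  have hS0 : ∀ u, S' (0, u) = f u := fun u =>
    cov.liftHomotopy_zero (ContinuousMap.id (I × I)) f (fun u => rfl) u
  refine ⟨⟨fun x => (S' x).1.2, by fun_prop⟩, fun x => ?_, fun u => ?_, fun s => ?_, fun s => ?_⟩
  · have h2 := (S' x).2
    rw [hS1 x] at h2
    exact h2
  · show (S' (0, u)).1.2 = b u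
    rw [hS0]
    rfl
  · have h2 := cov.eq_of_comp_eq (A := I) (g₁ := fun s => S' (s, 0))
      (g₂ := fun s => ⟨((s, 0), l s), hl s⟩) (by fun_prop)
      (Continuous.subtype_mk (by fun_prop) _) (funext (fun s => hS1 (s, 0))) 0 (by
        show S' (0, 0) = _
        rw [hS0]
        exact Subtype.ext (Prod.ext rfl h0))
    exact congrArg (fun q : RootSp P => q.1.2) (congrFun h2 s)
  · have h2 := cov.eq_of_comp_eq (A := I) (g₁ := fun s => S' (s, 1))
      (g₂ := fun s => ⟨((s, 1), r s), hr s⟩) (by fun_prop)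
      (Continuous.subtype_mk (by fun_prop) _) (funext (fun s => hS1 (s, 1))) 0 (by
        show S' (0, 1) = _
        rw [hS0]
        exact Subtype.ext (Prod.ext rfl h1))
    exact congrArg (fun q : RootSp P => q.1.2) (congrFun h2 s)

end square

section

variable {a m : ℕ}

/-- the polynomial `S ^ N + ∑ j, c j (w, x) S ^ j` -/
noncomputable def etP (N : ℕ) (c : Fin N → MvPolynomial (Fin (a + 1)) ℂ) (w : Fin a → ℂ) (x : ℂ) :
    Polynomial ℂ :=
  Polynomial.X ^ N + ∑ j : Fin N, Polynomial.C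
    (MvPolynomial.eval (Fin.snoc (α := fun _ => ℂ) w x) (c j)) * Polynomial.X ^ (j : ℕ)

/-- the family of the étale covers `s ^ N + ∑ j, c j (w, x) s ^ j = 0` of the lines without the
points `e i (w)`, `w ∈ W` -/
def EtY (W : Set (Fin a → ℂ)) (N : ℕ) (c : Fin N → MvPolynomial (Fin (a + 1)) ℂ)
    (e : Fin m → MvPolynomial (Fin a) ℂ) : Set (Fin (a + 3) → ℂ) :=
  {y | (fun j => y (Fin.castAdd 3 j)) ∈ W ∧
    y (Fin.natAdd a 1) ^ N + ∑ j : Fin N, MvPolynomial.eval (Fin.snoc (α := fun _ => ℂ)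
      (fun j => y (Fin.castAdd 3 j)) (y (Fin.natAdd a 0))) (c j) * y (Fin.natAdd a 1) ^ (j : ℕ)
        = 0 ∧
    y (Fin.natAdd a 2) *
      ∏ i, (y (Fin.natAdd a 0) - MvPolynomial.eval (fun j => y (Fin.castAdd 3 j)) (e i)) = 1}

/-- the parameters of the family -/
noncomputable def EtPi (a : ℕ) : Fin a → MvPolynomial (Fin (a + 3)) ℂ :=
  fun j => MvPolynomial.X (Fin.castAdd 3 j)

theorem eval_EtPi (y : Fin (a + 3) → ℂ) (j : Fin a) :
    MvPolynomial.eval y (EtPi a j) = y (Fin.castAdd 3 j) := MvPolynomial.eval_X _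

theorem par_EtPi (y : Fin (a + 3) → ℂ) : par (EtPi a) y = fun j => y (Fin.castAdd 3 j) :=
  funext (eval_EtPi y)

variable {N : ℕ} {c : Fin N → MvPolynomial (Fin (a + 1)) ℂ}

theorem eval_etP (w : Fin a → ℂ) (x s : ℂ) : (etP N c w x).eval s =
    s ^ N + ∑ j : Fin N, MvPolynomial.eval (Fin.snoc (α := fun _ => ℂ) w x) (c j) *
      s ^ (j : ℕ) := by
  simp [etP, Polynomial.eval_finsetSum]

theorem etP_degree (w : Fin a → ℂ) (x : ℂ) : (∑ j : Fin N, Polynomial.C
    (MvPolynomial.eval (Fin.snoc (α := fun _ => ℂ) w x) (c j)) *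
      Polynomial.X ^ (j : ℕ)).degree < (N : WithBot ℕ) := Polynomial.degree_sum_fin_lt _

theorem etP_monic (w : Fin a → ℂ) (x : ℂ) : (etP N c w x).Monic :=
  Polynomial.monic_X_pow_add (etP_degree w x)

theorem etP_natDegree (w : Fin a → ℂ) (x : ℂ) : (etP N c w x).natDegree = N :=
  Polynomial.natDegree_eq_of_degree_eq_some (by
    unfold etP
    rw [Polynomial.degree_add_eq_left_of_degree_lt]
    · exact Polynomial.degree_X_pow N
    · rw [Polynomial.degree_X_pow]
      exact etP_degree w x)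

theorem etP_coeff {T : Type*} [TopologicalSpace T] {w : T → Fin a → ℂ} {x : T → ℂ}
    (hw : Continuous w) (hx : Continuous x) (i : ℕ) :
    Continuous (fun t => (etP N c (w t) (x t)).coeff i) := by
  unfold etP
  simp only [Polynomial.coeff_add, Polynomial.finsetSum_coeff, Polynomial.coeff_C_mul]
  refine continuous_const.add (continuous_finsetSum _ (fun j _ => ?_))
  refine Continuous.mul ?_ continuous_const
  exact (MvPolynomial.continuous_eval (c j)).comp (Continuous.finSnoc hw hx)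

/-- a point with the parameters `w` and the coordinates `x`, `s` -/
noncomputable def ept (e : Fin m → MvPolynomial (Fin a) ℂ) (w : Fin a → ℂ) (x s : ℂ) :
    Fin (a + 3) → ℂ :=
  Fin.append w ![x, s, (∏ i, (x - MvPolynomial.eval w (e i)))⁻¹]

variable {e : Fin m → MvPolynomial (Fin a) ℂ} {W : Set (Fin a → ℂ)}

theorem ept_left (w : Fin a → ℂ) (x s : ℂ) (j : Fin a) : ept e w x s (Fin.castAdd 3 j) = w j :=
  Fin.append_left _ _ _

theorem ept_x (w : Fin a → ℂ) (x s : ℂ) : ept e w x s (Fin.natAdd a 0) = x :=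
  Fin.append_right _ _ _

theorem ept_s (w : Fin a → ℂ) (x s : ℂ) : ept e w x s (Fin.natAdd a 1) = s :=
  Fin.append_right _ _ _

theorem ept_z (w : Fin a → ℂ) (x s : ℂ) : ept e w x s (Fin.natAdd a 2) =
    (∏ i, (x - MvPolynomial.eval w (e i)))⁻¹ :=
  Fin.append_right _ _ _

theorem prod_ne {w : Fin a → ℂ} {x : ℂ} (hx : x ∈ Pt (brp e w)) :
    ∏ i, (x - MvPolynomial.eval w (e i)) ≠ 0 :=
  Finset.prod_ne_zero_iff.mpr (fun i _ => sub_ne_zero.mpr (hx i))

theorem ept_mem {w : Fin a → ℂ} {x s : ℂ} (hw : w ∈ W) (hx : x ∈ Pt (brp e w))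
    (hs : (etP N c w x).eval s = 0) : ept e w x s ∈ EtY W N c e := by
  have h1 : (fun j => ept e w x s (Fin.castAdd 3 j)) = w := funext (fun j => ept_left w x s j)
  refine ⟨?_, ?_, ?_⟩
  · rw [h1]
    exact hw
  · rw [h1, ept_x, ept_s]
    rwa [eval_etP] at hs
  · rw [h1, ept_x, ept_z]
    exact inv_mul_cancel₀ (prod_ne hx)

theorem EtY_W {y : Fin (a + 3) → ℂ} (hy : y ∈ EtY W N c e) :
    (fun j => y (Fin.castAdd 3 j)) ∈ W := hy.1

theorem EtY_P {y : Fin (a + 3) → ℂ} (hy : y ∈ EtY W N c e) :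
    (etP N c (fun j => y (Fin.castAdd 3 j)) (y (Fin.natAdd a 0))).eval (y (Fin.natAdd a 1))
      = 0 := by
  rw [eval_etP]
  exact hy.2.1

theorem EtY_x {y : Fin (a + 3) → ℂ} (hy : y ∈ EtY W N c e) :
    y (Fin.natAdd a 0) ∈ Pt (brp e (fun j => y (Fin.castAdd 3 j))) := by
  intro i hi
  have h1 := hy.2.2
  have h2 : ∏ i, (y (Fin.natAdd a 0) -
      MvPolynomial.eval (fun j => y (Fin.castAdd 3 j)) (e i)) = 0 :=
    Finset.prod_eq_zero (Finset.mem_univ i) (sub_eq_zero.mpr hi)
  rw [h2, mul_zero] at h1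
  exact zero_ne_one h1

theorem ept_eq {y : Fin (a + 3) → ℂ} (hy : y ∈ EtY W N c e) :
    ept e (fun j => y (Fin.castAdd 3 j)) (y (Fin.natAdd a 0)) (y (Fin.natAdd a 1)) = y := by
  funext j
  induction j using Fin.addCases with
  | left j => exact ept_left _ _ _ _
  | right j =>
    rcases j with ⟨j, hj⟩
    interval_cases j
    · exact ept_x _ _ _
    · exact ept_s _ _ _
    · refine (ept_z _ _ _).trans ?_
      exact (eq_inv_of_mul_eq_one_left hy.2.2).symm

theorem continuous_ept {T : Type*} [TopologicalSpace T] {w : T → Fin a → ℂ} {x s : T → ℂ}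
    (hw : Continuous w) (hx : Continuous x) (hs : Continuous s)
    (h : ∀ t, x t ∈ Pt (brp e (w t))) : Continuous (fun t => ept e (w t) (x t) (s t)) := by
  refine continuous_pi (fun j => ?_)
  induction j using Fin.addCases with
  | left j =>
    simp only [ept_left]
    exact (continuous_apply j).comp hw
  | right j =>
    rcases j with ⟨j, hj⟩
    interval_cases j
    · exact hx.congr (fun t => (ept_x (w t) (x t) (s t)).symm)
    · exact hs.congr (fun t => (ept_s (w t) (x t) (s t)).symm)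
    · refine Continuous.congr ?_ (fun t => (ept_z (w t) (x t) (s t)).symm)
      refine Continuous.inv₀ ?_ (fun t => prod_ne (h t))
      exact continuous_finsetProd _ (fun i _ =>
        hx.sub ((MvPolynomial.continuous_eval (e i)).comp hw))

end

end Pool.Agent.X325.ET
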