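import Mathlib
import Pool.Agent.X325.ET.Fam

/-! Homotopy lifting and path lifting for the algebraic families of étale covers of open subsets of
the line. -/

set_option autoImplicit false

open Topology Set unitInterval

namespace Pool.Agent.X325.ET

open Pool.Agent.X325.HS Pool.Agent.X325.EC Pool.Agent.Y193.FG

section

variable {a m N : ℕ} {W : Set (Fin a → ℂ)} {c : Fin N → MvPolynomial (Fin (a + 1)) ℂ}
  {e : Fin m → MvPolynomial (Fin a) ℂ}

theorem hasTransport_EtY (hd : ∀ w ∈ W, ∀ i j, i ≠ j →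
      MvPolynomial.eval w (e i) ≠ MvPolynomial.eval w (e j))
    (het : ∀ w ∈ W, ∀ x, (∀ i, x ≠ MvPolynomial.eval w (e i)) → ∀ s,
      (etP N c w x).eval s = 0 → (etP N c w x).derivative.eval s ≠ 0) :
    HasTransport (EtY W N c e) (EtPi a) := by
  intro y y' β hy hβ h0 h1
  have hy' : ∀ s (j : Fin a), (y' s).1 (Fin.castAdd 3 j) = (y s).1 (Fin.castAdd 3 j) :=
    fun s j => by
      have := hy s j
      rwa [eval_EtPi, eval_EtPi] at this
  have hβ' : ∀ u (j : Fin a), (β u).1 (Fin.castAdd 3 j) = (y 0).1 (Fin.castAdd 3 j) :=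
    fun s j => by
      have := hβ s j
      rwa [eval_EtPi, eval_EtPi] at this
  let w : ℝ → Fin a → ℂ := fun s j => (y (projIcc 0 1 zero_le_one s)).1 (Fin.castAdd 3 j)
  have hyc : Continuous (fun s : ℝ => (y (projIcc 0 1 zero_le_one s)).1) :=
    continuous_subtype_val.comp (y.continuous.comp continuous_projIcc)
  have hyc' : Continuous (fun s : ℝ => (y' (projIcc 0 1 zero_le_one s)).1) :=
    continuous_subtype_val.comp (y'.continuous.comp continuous_projIcc)
  have hw : Continuous w := continuous_pi (fun j => (continuous_apply _).comp hyc)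
  have hwW : ∀ s, w s ∈ W := fun s => EtY_W (y (projIcc 0 1 zero_le_one s)).2
  let p : ℝ → ℂ := fun s => (y (projIcc 0 1 zero_le_one s)).1 (Fin.natAdd a 0)
  let p' : ℝ → ℂ := fun s => (y' (projIcc 0 1 zero_le_one s)).1 (Fin.natAdd a 0)
  have hp : Continuous p := (continuous_apply _).comp hyc
  have hp' : Continuous p' := (continuous_apply _).comp hyc'
  have hpF : ∀ s, p s ∈ Pt (brp e (w s)) := fun s => EtY_x (y (projIcc 0 1 zero_le_one s)).2
  have hpF' : ∀ s, p' s ∈ Pt (brp e (w s)) := fun s => by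
    have h2 := EtY_x (y' (projIcc 0 1 zero_le_one s)).2
    have h3 : (fun j => (y' (projIcc 0 1 zero_le_one s)).1 (Fin.castAdd 3 j)) = w s :=
      funext (fun j => hy' _ j)
    rw [h3] at h2
    exact h2
  have hw0 : w 0 = fun j => (y 0).1 (Fin.castAdd 3 j) := by
    show (fun j => (y (projIcc 0 1 zero_le_one 0)).1 (Fin.castAdd 3 j)) = _
    rw [projIcc_left]
    rfl
  have hws : ∀ s : I, w s.1 = fun j => (y s).1 (Fin.castAdd 3 j) := fun s => by
    show (fun j => (y (projIcc 0 1 zero_le_one s.1)).1 (Fin.castAdd 3 j)) = _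
    rw [projIcc_val]
  have hws' : ∀ s : I, w s.1 = fun j => (y' s).1 (Fin.castAdd 3 j) := fun s => by
    rw [hws]
    exact (funext (hy' s)).symm
  have hwb : ∀ u : I, w 0 = fun j => (β u).1 (Fin.castAdd 3 j) := fun u => by
    rw [hw0]
    exact (funext (hβ' u)).symm
  have hpe : ∀ s : I, p s.1 = (y s).1 (Fin.natAdd a 0) := fun s => by
    show (y (projIcc 0 1 zero_le_one s.1)).1 (Fin.natAdd a 0) = _
    rw [projIcc_val]
  have hpe' : ∀ s : I, p' s.1 = (y' s).1 (Fin.natAdd a 0) := fun s => by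
    show (y' (projIcc 0 1 zero_le_one s.1)).1 (Fin.natAdd a 0) = _
    rw [projIcc_val]
  have hL := lifts_Pt (e := fun s => brp e (w s)) (continuous_brp.comp hw)
    (fun s _ i j hij => by
      by_contra hne
      exact hd (w s) (hwW s) i j hne hij) hp hp' (fun s _ => hpF s) (fun s _ => hpF' s)
  obtain ⟨B, hB1, hB2, hB3⟩ := hL
    ⟨fun u => (β u).1 (Fin.natAdd a 0),
      (continuous_apply _).comp (continuous_subtype_val.comp β.continuous)⟩
    (fun u => by
      have h2 := EtY_x (β u).2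
      rw [← hwb u] at h2
      exact h2)
    (by
      show (β 0).1 (Fin.natAdd a 0) = p (0 : I).1
      rw [hpe, h0])
    (by
      show (β 1).1 (Fin.natAdd a 0) = p' (0 : I).1
      rw [hpe', h1])
  have hB2' : ∀ u : I, B ((0 : I).1, u) = (β u).1 (Fin.natAdd a 0) := hB2
  let X : I × I → ℂ := fun x => B (x.1.1, x.2)
  have hX : Continuous X := B.continuous.comp (by fun_prop)
  have hwc : Continuous (fun x : I × I => w x.1.1) :=
    hw.comp (continuous_subtype_val.comp continuous_fst)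
  have hXF : ∀ x, X x ∈ Pt (brp e (w x.1.1)) := fun x => hB1 x.1.1 x.1.2 x.2
  obtain ⟨S, hS, hSb, hSl, hSr⟩ := root_square (P := fun x => etP N c (w x.1.1) (X x))
    (fun x => etP_natDegree _ _) (fun i => etP_coeff hwc hX i) (fun x => etP_monic _ _)
    (fun x θ hθ => het _ (hwW _) _ (hXF x) θ hθ)
    (b := ⟨fun u => (β u).1 (Fin.natAdd a 1),
      (continuous_apply _).comp (continuous_subtype_val.comp β.continuous)⟩)
    (l := ⟨fun s => (y s).1 (Fin.natAdd a 1),
      (continuous_apply _).comp (continuous_subtype_val.comp y.continuous)⟩)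
    (r := ⟨fun s => (y' s).1 (Fin.natAdd a 1),
      (continuous_apply _).comp (continuous_subtype_val.comp y'.continuous)⟩)
    (fun u => by
      have h2 := EtY_P (β u).2
      show (etP N c (w (0 : ℝ)) (B ((0 : I).1, u))).eval ((β u).1 (Fin.natAdd a 1)) = 0
      rw [hB2' u, hwb u]
      exact h2)
    (fun s => by
      have h2 := EtY_P (y s).2
      show (etP N c (w s.1) (B (s.1, 0))).eval ((y s).1 (Fin.natAdd a 1)) = 0
      rw [(hB3 s.1 s.2).1, hpe, hws]
      exact h2)
    (fun s => by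
      have h2 := EtY_P (y' s).2
      show (etP N c (w s.1) (B (s.1, 1))).eval ((y' s).1 (Fin.natAdd a 1)) = 0
      rw [(hB3 s.1 s.2).2, hpe', hws']
      exact h2)
    (by
      show (β 0).1 _ = (y 0).1 _
      rw [h0])
    (by
      show (β 1).1 _ = (y' 0).1 _
      rw [h1])
  refine ⟨⟨fun x => ⟨ept e (w x.1.1) (X x) (S x), ept_mem (hwW _) (hXF x) (hS x)⟩,
    Continuous.subtype_mk (continuous_ept hwc hX S.continuous hXF) _⟩, ?_, ?_, ?_, ?_⟩
  · intro s u j
    show MvPolynomial.eval (ept e (w s.1) (X (s, u)) (S (s, u))) (EtPi a j) = _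
    rw [eval_EtPi, eval_EtPi, ept_left, hws]
  · intro u
    apply Subtype.ext
    show ept e (w (0 : ℝ)) (B ((0 : I).1, u)) (S (0, u)) = (β u).1
    rw [hSb, hB2', hwb u]
    exact ept_eq (β u).2
  · intro s
    apply Subtype.ext
    show ept e (w s.1) (B (s.1, 0)) (S (s, 0)) = (y s).1
    rw [hSl, (hB3 s.1 s.2).1, hpe, hws]
    exact ept_eq (y s).2
  · intro s
    apply Subtype.ext
    show ept e (w s.1) (B (s.1, 1)) (S (s, 1)) = (y' s).1
    rw [hSr, (hB3 s.1 s.2).2, hpe', hws']
    exact ept_eq (y' s).2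

theorem hasLift_EtY (hd : ∀ w ∈ W, ∀ i j, i ≠ j →
      MvPolynomial.eval w (e i) ≠ MvPolynomial.eval w (e j))
    (het : ∀ w ∈ W, ∀ x, (∀ i, x ≠ MvPolynomial.eval w (e i)) → ∀ s,
      (etP N c w x).eval s = 0 → (etP N c w x).derivative.eval s ≠ 0) :
    HasLift (EtY W N c e) (EtPi a) W := by
  intro γ hγ y hy h0
  let w : ℝ → Fin a → ℂ := fun s => γ (projIcc 0 1 zero_le_one s)
  have hw : Continuous w := γ.continuous.comp continuous_projIcc
  have hwW : ∀ s, w s ∈ W := fun s => hγ _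
  have hws : ∀ s : I, w s.1 = γ s := fun s => by
    show γ (projIcc 0 1 zero_le_one s.1) = _
    rw [projIcc_val]
  have hw0 : w 0 = fun j => y (Fin.castAdd 3 j) := by
    have h1 : w (0 : I).1 = γ 0 := hws 0
    rw [← par_EtPi, h0]
    exact h1
  obtain ⟨p, hp0, hp⟩ := plifts_Pt (e := fun s => brp e (w s)) (continuous_brp.comp hw)
    (fun s _ i j hij => by
      by_contra hne
      exact hd (w s) (hwW s) i j hne hij) (y (Fin.natAdd a 0)) (by
        show y (Fin.natAdd a 0) ∈ Pt (brp e (w 0))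
        rw [hw0]
        exact EtY_x hy)
  let X : I → ℂ := fun t => p t.1
  have hX : Continuous X := p.continuous.comp continuous_subtype_val
  have hXF : ∀ t, X t ∈ Pt (brp e (γ t)) := fun t => by
    rw [← hws]
    exact hp t.1 t.2
  obtain ⟨θ, hθ0, hθ⟩ := root_lift (n := N) (fun t => etP N c (γ t) (X t))
    (fun t => etP_natDegree _ _) (fun i => etP_coeff γ.continuous hX i) (fun t => etP_monic _ _)
    (fun t θ hθ => het _ (hγ t) _ (hXF t) θ hθ) (y (Fin.natAdd a 1)) (by
      show (etP N c (γ 0) (p 0)).eval (y (Fin.natAdd a 1)) = 0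
      rw [hp0, ← h0, par_EtPi]
      exact EtY_P hy)
  refine ⟨⟨fun t => ⟨ept e (γ t) (X t) (θ t), ept_mem (hγ t) (hXF t) (hθ t)⟩,
    Continuous.subtype_mk (continuous_ept γ.continuous hX θ.continuous hXF) _⟩, ?_, ?_⟩
  · show ept e (γ 0) (p 0) (θ 0) = y
    rw [hp0, hθ0, ← h0, par_EtPi]
    exact ept_eq hy
  · intro t
    show par (EtPi a) (ept e (γ t) (X t) (θ t)) = γ t
    rw [par_EtPi]
    exact funext (fun j => ept_left _ _ _ _)

/-- the connectedness of the fibres is constant along paths of the base -/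
theorem fib_move_EtY (hd : ∀ w ∈ W, ∀ i j, i ≠ j →
      MvPolynomial.eval w (e i) ≠ MvPolynomial.eval w (e j))
    (het : ∀ w ∈ W, ∀ x, (∀ i, x ≠ MvPolynomial.eval w (e i)) → ∀ s,
      (etP N c w x).eval s = 0 → (etP N c w x).derivative.eval s ≠ 0)
    {y y' : Fin (a + 3) → ℂ} (hy : y ∈ EtY W N c e) (hy' : y' ∈ EtY W N c e)
    (hj : JoinedIn W (fun j => y (Fin.castAdd 3 j)) (fun j => y' (Fin.castAdd 3 j)))
    (hc : IsPathConnected (Fib (EtY W N c e) (EtPi a) y)) :
    IsPathConnected (Fib (EtY W N c e) (EtPi a) y') :=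
  fib_move (hasTransport_EtY hd het) (hasLift_EtY hd het) hy hy'
    (by rw [par_EtPi, par_EtPi]; exact hj) hc

/-- the property of the images of the fundamental groups of the fibres is constant along paths of
the base -/
theorem pi_move_EtY {C : ∀ (G : Type) [Group G], Prop}
    (hsub : ∀ (G G' : Type) [Group G] [Group G'] (f : G →* G'), Function.Injective f → C G' → C G)
    (hd : ∀ w ∈ W, ∀ i j, i ≠ j →
      MvPolynomial.eval w (e i) ≠ MvPolynomial.eval w (e j))
    (het : ∀ w ∈ W, ∀ x, (∀ i, x ≠ MvPolynomial.eval w (e i)) → ∀ s,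
      (etP N c w x).eval s = 0 → (etP N c w x).derivative.eval s ≠ 0)
    {y y' : Fin (a + 3) → ℂ}
    (hj : JoinedIn W (fun j => y (Fin.castAdd 3 j)) (fun j => y' (Fin.castAdd 3 j)))
    {Z : Type} [TopologicalSpace Z] (φ : C(EtY W N c e, Z))
    (hc : PiImageIn C (toFib (π := EtPi a) φ y)) : PiImageIn C (toFib (π := EtPi a) φ y') :=
  pi_move hsub (hasTransport_EtY hd het) (hasLift_EtY hd het)
    (by rw [par_EtPi, par_EtPi]; exact hj) φ hc

end

end Pool.Agent.X325.ET
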