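import Mathlib
import Pool.Agent.X325.ET.Tr
import Pool.Agent.X325.HS.FinF

/-! Curves which are étale covers of open subsets of the line, and regular maps of such curves. -/

set_option autoImplicit false

open Topology Set unitInterval

namespace Pool.Agent.X325.ET

open Pool.Agent.X325.HS Pool.Agent.X325.EC Pool.Agent.Y193.CS Pool.Agent.Y193.FG

/-- the polynomial `S ^ N + ∑ j, c j (x) S ^ j` -/
noncomputable def ecP (N : ℕ) (c : Fin N → Polynomial ℂ) (x : ℂ) : Polynomial ℂ :=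
  Polynomial.X ^ N + ∑ j : Fin N, Polynomial.C ((c j).eval x) * Polynomial.X ^ (j : ℕ)

/-- the curve of the points `(x, s, z)` with `s ^ N + ∑ j, c j (x) s ^ j = 0` and
`z ∏ (x - e i) = 1` -/
def EtC (N : ℕ) {m : ℕ} (c : Fin N → Polynomial ℂ) (e : Fin m → ℂ) : Set (Fin 3 → ℂ) :=
  {y | y 1 ^ N + ∑ j : Fin N, (c j).eval (y 0) * y 1 ^ (j : ℕ) = 0 ∧
    y 2 * ∏ i, (y 0 - e i) = 1}

/-- the points `e i` are distinct and the polynomial `S ^ N + ∑ j, c j (x) S ^ j` has simple roots
for all `x` different from the points `e i`, so that the curve `EtC N c e` is a finite étale cover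
of the line without the points `e i` -/
def IsEtale (N : ℕ) {m : ℕ} (c : Fin N → Polynomial ℂ) (e : Fin m → ℂ) : Prop :=
  Function.Injective e ∧ ∀ x, (∀ i, x ≠ e i) → ∀ s, (ecP N c x).eval s = 0 →
    (ecP N c x).derivative.eval s ≠ 0

/-- `x` and `x'` are in the image of a connected curve as above under a regular map `φ` to `X`
such that the image of its fundamental group in the fundamental group of `X` belongs to the class
`C` -/
def CurveLinked {n : ℕ} (X : Set (CP n)) (C : ∀ (G : Type) [Group G], Prop) (x x' : CP n) : Prop :=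
  ∃ (N m : ℕ) (c : Fin N → Polynomial ℂ) (e : Fin m → ℂ), IsEtale N c e ∧
    IsPathConnected (EtC N c e) ∧ ∃ φ : C(EtC N c e, X),
      IsRegularMap (EtC N c e) (fun y => (φ y).1) ∧ PiImageIn C φ ∧
      (∃ y, (φ y).1 = x) ∧ ∃ y, (φ y).1 = x'

section

variable {N m : ℕ} {c : Fin N → Polynomial ℂ} {e : Fin m → ℂ}

theorem eval_ecP (x s : ℂ) : (ecP N c x).eval s =
    s ^ N + ∑ j : Fin N, (c j).eval x * s ^ (j : ℕ) := by
  simp [ecP, Polynomial.eval_finsetSum]

theorem EtC_P {y : Fin 3 → ℂ} (hy : y ∈ EtC N c e) : (ecP N c (y 0)).eval (y 1) = 0 := by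
  rw [eval_ecP]
  exact hy.1

theorem EtC_x {y : Fin 3 → ℂ} (hy : y ∈ EtC N c e) (i : Fin m) : y 0 ≠ e i := by
  intro hi
  have h1 := hy.2
  rw [Finset.prod_eq_zero (Finset.mem_univ i) (sub_eq_zero.mpr hi), mul_zero] at h1
  exact zero_ne_one h1

/-- the derivative as a polynomial -/
noncomputable def dP (N : ℕ) (c : Fin N → Polynomial ℂ) : MvPolynomial (Fin 3) ℂ :=
  MvPolynomial.C (N : ℂ) * MvPolynomial.X 1 ^ (N - 1) + ∑ j : Fin N,
    Polynomial.aeval (MvPolynomial.X 0 : MvPolynomial (Fin 3) ℂ) (c j) *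
      (MvPolynomial.C ((j : ℕ) : ℂ) * MvPolynomial.X 1 ^ ((j : ℕ) - 1))

theorem eval_aeval0 (y : Fin 3 → ℂ) (f : Polynomial ℂ) :
    MvPolynomial.eval y (Polynomial.aeval (MvPolynomial.X 0 : MvPolynomial (Fin 3) ℂ) f) =
      f.eval (y 0) := by
  induction f using Polynomial.induction_on' with
  | add f g hf hg => rw [map_add, map_add, hf, hg, Polynomial.eval_add]
  | monomial k a => simp [MvPolynomial.algebraMap_eq, Polynomial.aeval_monomial]

theorem eval_dP (y : Fin 3 → ℂ) :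
    MvPolynomial.eval y (dP N c) = (ecP N c (y 0)).derivative.eval (y 1) := by
  unfold dP ecP
  rw [map_add, map_sum]
  simp only [map_mul, map_pow, MvPolynomial.eval_X, MvPolynomial.eval_C, eval_aeval0,
    Polynomial.derivative_add, Polynomial.derivative_X_pow, Polynomial.derivative_sum,
    Polynomial.derivative_C_mul, Polynomial.eval_add, Polynomial.eval_mul, Polynomial.eval_pow,
    Polynomial.eval_X, Polynomial.eval_finsetSum, Polynomial.eval_C]

theorem algSet_EtC : AlgSet (EtC N c e) := by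
  have h : EtC N c e = {y | y 1 ^ N + ∑ j : Fin N, (c j).eval (y 0) * y 1 ^ (j : ℕ) = 0} ∩
      {y | y 2 * ∏ i, (y 0 - e i) - 1 = 0} := by
    ext y
    show (_ ∧ _) ↔ (_ ∧ _)
    simp only [mem_ofPred_eq, sub_eq_zero]
  rw [h]
  have hc : ∀ j : Fin N, PolyF (fun y : Fin 3 → ℂ => (c j).eval (y 0)) := fun j =>
    ⟨_, fun y => (eval_aeval0 y (c j)).symm⟩
  refine AlgSet.inter (AlgSet.zero ?_) (AlgSet.zero ?_)
  · exact ((PolyF.coord _).pow N).add (PolyF.sum _ (fun j => (hc j).mul ((PolyF.coord _).pow _)))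
  · exact ((PolyF.coord _).mul (PolyF.prod _ (fun i => (PolyF.coord _).sub (PolyF.const _)))).sub
      (PolyF.const _)

end

section lift

variable {n : ℕ} {ι κ : Type} [Fintype κ] {p : ι → MvPolynomial (Fin (n + 1)) ℂ}
  {q : κ → MvPolynomial (Fin (n + 1)) ℂ}

theorem exists_data (hp : ∀ i, ∃ d, (p i).IsHomogeneous d)
    (hq : ∀ j, ∃ d, (q j).IsHomogeneous d) {N m : ℕ} {c : Fin N → Polynomial ℂ} {e : Fin m → ℂ}
    (het : IsEtale N c e) (φ : C(EtC N c e, QP p q))
    (hφ : IsRegularMap (EtC N c e) (fun y => (φ y).1)) :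
    ∃ (F : Fin (n + 1) × Fin (n + 1) → MvPolynomial (Fin 3) ℂ) (v : MvPolynomial (Fin 3) ℂ)
      (g : κ × Fin (n + 1) → MvPolynomial (Fin 3) ℂ), ∀ y (hy : y ∈ EtC N c e),
        (∃ (u η : Fin (n + 1) → ℂ) (hu : u ≠ 0), (φ ⟨y, hy⟩).1 = CP.mk u hu ∧
          ∑ i, u i * η i = 1 ∧ (fun b => MvPolynomial.eval y (F b)) = outer u η) ∧
        (fun b => MvPolynomial.eval y (F b)) ∈ QA (PT p) (QT q) ∧
        MvPolynomial.eval y v * (ecP N c (y 0)).derivative.eval (y 1) = 1 ∧
        ∑ j, MvPolynomial.eval y (g j) *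
          MvPolynomial.eval (fun b => MvPolynomial.eval y (F b)) (QT q j) = 1 := by
  classical
  obtain ⟨F, hF⟩ := lift_regular algSet_EtC hφ
  have hm : ∀ y ∈ EtC N c e, (fun b => MvPolynomial.eval y (F b)) ∈ QA (PT p) (QT q) := by
    intro y hy
    obtain ⟨u, η, hu, h1, h2, h3⟩ := hF ⟨y, hy⟩
    have h4 : (fun b => MvPolynomial.eval y (F b)) = outer u η := h3
    rw [h4]
    have h5 : (φ ⟨y, hy⟩).1 = CP.mk u hu := h1
    exact outer_mem hp hq (hv := hu) h2 (by rw [← h5]; exact (φ ⟨y, hy⟩).2)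
  obtain ⟨v, hv⟩ := exists_bezout (μ := Unit) (Y := EtC N c e) algSet_EtC (fun _ => dP N c)
    (fun y hy => ⟨(), by
      rw [eval_dP]
      exact het.2 _ (EtC_x hy) _ (EtC_P hy)⟩)
  obtain ⟨g, hg⟩ := exists_bezout (Y := EtC N c e) algSet_EtC
    (fun j => MvPolynomial.bind₁ F (QT q j)) (fun y hy => by
      obtain ⟨j, hj⟩ := (hm y hy).2
      refine ⟨j, ?_⟩
      have : MvPolynomial.eval y (MvPolynomial.bind₁ F (QT q j)) =
          MvPolynomial.eval (fun i => MvPolynomial.eval y (F i)) (QT q j) :=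
        MvPolynomial.eval₂Hom_bind₁ _ _ _ _
      rw [this]
      exact hj)
  refine ⟨F, v (), g, fun y hy => ⟨hF ⟨y, hy⟩, hm y hy, ?_, ?_⟩⟩
  · have h1 := hv y hy
    rw [Fintype.sum_unique, eval_dP] at h1
    exact h1
  · rw [← hg y hy]
    refine Finset.sum_congr rfl (fun j _ => ?_)
    congr 1
    exact (MvPolynomial.eval₂Hom_bind₁ _ _ _ _).symm

end lift

section fibre

variable {a m N : ℕ} {W : Set (Fin a → ℂ)} {c : Fin N → MvPolynomial (Fin (a + 1)) ℂ}
  {e : Fin m → MvPolynomial (Fin a) ℂ} {w : Fin a → ℂ} {c' : Fin N → Polynomial ℂ}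
  {e' : Fin m → ℂ}

/-- the point with the parameters `w` and the coordinates `t = (x, s, z)` -/
def ofE (w : Fin a → ℂ) (t : Fin 3 → ℂ) : Fin (a + 3) → ℂ := Fin.append w t

/-- the coordinates of a point -/
def toE (y : Fin (a + 3) → ℂ) : Fin 3 → ℂ := fun i => y (Fin.natAdd a i)

theorem ofE_left (w : Fin a → ℂ) (t : Fin 3 → ℂ) (j : Fin a) : ofE w t (Fin.castAdd 3 j) = w j :=
  Fin.append_left _ _ _

theorem ofE_right (w : Fin a → ℂ) (t : Fin 3 → ℂ) (j : Fin 3) : ofE w t (Fin.natAdd a j) = t j :=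
  Fin.append_right _ _ _

theorem ofE_toE {y : Fin (a + 3) → ℂ} (h : (fun j => y (Fin.castAdd 3 j)) = w) :
    ofE w (toE y) = y := by
  subst h
  funext j
  induction j using Fin.addCases with
  | left j => exact ofE_left _ _ _
  | right j => exact ofE_right _ _ _

theorem toE_ofE (w : Fin a → ℂ) (t : Fin 3 → ℂ) : toE (ofE w t) = t :=
  funext (fun j => ofE_right w t j)

theorem ecP_eq (hc : ∀ j x, (c' j).eval x =
    MvPolynomial.eval (Fin.snoc (α := fun _ => ℂ) w x) (c j)) (x : ℂ) :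
    ecP N c' x = etP N c w x := by
  unfold ecP etP
  simp only [hc]

theorem ofE_mem (hc : ∀ j x, (c' j).eval x =
    MvPolynomial.eval (Fin.snoc (α := fun _ => ℂ) w x) (c j))
    (he : ∀ i, e' i = MvPolynomial.eval w (e i)) (hw : w ∈ W) {t : Fin 3 → ℂ}
    (ht : t ∈ EtC N c' e') : ofE w t ∈ EtY W N c e := by
  have h1 : (fun j => ofE w t (Fin.castAdd 3 j)) = w := funext (fun j => ofE_left w t j)
  refine ⟨?_, ?_, ?_⟩
  · rw [h1]
    exact hw
  · rw [h1, ofE_right, ofE_right]
    have h2 := ht.1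
    simp only [hc] at h2
    exact h2
  · rw [h1, ofE_right, ofE_right]
    have h2 := ht.2
    simp only [he] at h2
    exact h2

theorem toE_mem (hc : ∀ j x, (c' j).eval x =
    MvPolynomial.eval (Fin.snoc (α := fun _ => ℂ) w x) (c j))
    (he : ∀ i, e' i = MvPolynomial.eval w (e i)) {y : Fin (a + 3) → ℂ} (hy : y ∈ EtY W N c e)
    (hw : (fun j => y (Fin.castAdd 3 j)) = w) : toE y ∈ EtC N c' e' := by
  subst hw
  refine ⟨?_, ?_⟩
  · simp only [hc]
    exact hy.2.1
  · simp only [he]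
    exact hy.2.2

theorem continuous_ofE (w : Fin a → ℂ) : Continuous (ofE w) := by
  refine continuous_pi (fun j => ?_)
  induction j using Fin.addCases with
  | left j =>
    simp only [ofE_left]
    exact continuous_const
  | right j =>
    simp only [ofE_right]
    exact continuous_apply j

theorem continuous_toE : Continuous (toE : (Fin (a + 3) → ℂ) → Fin 3 → ℂ) :=
  continuous_pi (fun _ => continuous_apply _)

theorem par_of_Fib {y z : Fin (a + 3) → ℂ} (hz : z ∈ Fib (EtY W N c e) (EtPi a) y) :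
    (fun j => z (Fin.castAdd 3 j)) = fun j => y (Fin.castAdd 3 j) :=
  funext (fun j => by
    have := hz.2 j
    rwa [eval_EtPi, eval_EtPi] at this)

/-- the fibres of the family are connected if the corresponding curves are -/
theorem fib_of_EtC (hc : ∀ j x, (c' j).eval x =
    MvPolynomial.eval (Fin.snoc (α := fun _ => ℂ) w x) (c j))
    (he : ∀ i, e' i = MvPolynomial.eval w (e i)) {y : Fin (a + 3) → ℂ} (hy : y ∈ EtY W N c e)
    (hw : (fun j => y (Fin.castAdd 3 j)) = w) (hC : IsPathConnected (EtC N c' e')) :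
    IsPathConnected (Fib (EtY W N c e) (EtPi a) y) := by
  have hwW : w ∈ W := hw ▸ hy.1
  have h1 : Fib (EtY W N c e) (EtPi a) y = ofE w '' EtC N c' e' := by
    ext z
    constructor
    · intro hz
      have h2 := (par_of_Fib hz).trans hw
      exact ⟨toE z, toE_mem hc he hz.1 h2, ofE_toE h2⟩
    · rintro ⟨t, ht, rfl⟩
      refine ⟨ofE_mem hc he hwW ht, fun j => ?_⟩
      rw [eval_EtPi, eval_EtPi, ofE_left]
      exact (congrFun hw j).symm
  rw [h1]
  exact hC.image (continuous_ofE w)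

/-- the image under a composition -/
theorem range_comp_sub {C : ∀ (G : Type) [Group G], Prop}
    (hsub : ∀ (G G' : Type) [Group G] [Group G'] (f : G →* G'), Function.Injective f → C G' → C G)
    {A B Z : Type} [TopologicalSpace A] [TopologicalSpace B] [TopologicalSpace Z] (f : C(B, Z))
    (h : C(A, B)) (x : A) (hC : C (FundamentalGroup.map f (h x)).range) :
    C (FundamentalGroup.map (f.comp h) x).range := by
  have hmem : ∀ g : (FundamentalGroup.map (f.comp h) x).range,
      (show FundamentalGroup Z (f (h x)) from g.1) ∈ (FundamentalGroup.map f (h x)).range := by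
    rintro ⟨g, k, rfl⟩
    obtain ⟨P, rfl⟩ := Path.Homotopic.Quotient.mk_surjective k
    exact ⟨Path.Homotopic.Quotient.mk (P.map h.continuous), rfl⟩
  refine hsub _ (FundamentalGroup.map f (h x)).range
    ⟨⟨fun g => ⟨g.1, hmem g⟩, rfl⟩, fun _ _ => rfl⟩ ?_ hC
  intro g g' hgg
  have h2 : g.1 = g'.1 := congrArg (fun k : (FundamentalGroup.map f (h x)).range => k.1) hgg
  exact Subtype.ext h2

/-- the images of the fundamental groups of the fibres -/
theorem pi_of_EtC {C : ∀ (G : Type) [Group G], Prop}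
    (hsub : ∀ (G G' : Type) [Group G] [Group G'] (f : G →* G'), Function.Injective f → C G' → C G)
    (hc : ∀ j x, (c' j).eval x =
      MvPolynomial.eval (Fin.snoc (α := fun _ => ℂ) w x) (c j))
    (he : ∀ i, e' i = MvPolynomial.eval w (e i)) {y : Fin (a + 3) → ℂ} (hy : y ∈ EtY W N c e)
    (hw : (fun j => y (Fin.castAdd 3 j)) = w) {Z : Type} [TopologicalSpace Z]
    (φ : C(EtC N c' e', Z)) (Φ : C(EtY W N c e, Z))
    (hΦ : ∀ t : EtC N c' e', Φ ⟨ofE w t.1, ofE_mem hc he (hw ▸ hy.1) t.2⟩ = φ t)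
    (hC : PiImageIn C φ) : PiImageIn C (toFib (π := EtPi a) Φ y) := by
  let h : C(Fib (EtY W N c e) (EtPi a) y, EtC N c' e') :=
    ⟨fun z => ⟨toE z.1, toE_mem hc he z.2.1 ((par_of_Fib z.2).trans hw)⟩,
      Continuous.subtype_mk (continuous_toE.comp continuous_subtype_val) _⟩
  have h1 : toFib (π := EtPi a) Φ y = φ.comp h := by
    ext z
    show Φ ⟨z.1, z.2.1⟩ = φ (h z)
    rw [← hΦ]
    exact congrArg Φ (Subtype.ext (ofE_toE ((par_of_Fib z.2).trans hw)).symm)
  rw [h1]
  intro z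
  exact range_comp_sub hsub φ h z (hC (h z))

end fibre

end Pool.Agent.X325.ET
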